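import Pool.Agent.Y80.KM.Defs2

set_option autoImplicit false

open scoped BigOperators

/-! Job SUBQ of project KM (helper80): weight multiplicities of a subquotient. -/

namespace Pool.Agent.Y355.KM

open Pool.Agent.Y80.KM

universe u

/-- the statement of `rep2`, `rep3` in one universe -/
def RepN (k : Type u) [Field k] (N : ℕ) : Prop :=
  ∀ (M : Type u) [AddCommGroup M] [Module k M] [FiniteDimensional k M]
    (ρ : Matrix (Fin N) (Fin N) k →ₗ[k] Module.End k M),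
    (∀ X Y, ρ (X * Y - Y * X) = ρ X * ρ Y - ρ Y * ρ X) → ρ 1 = 0 →
    (⨆ μ : Fin N → ℤ, wsp ρ μ = ⊤) → (∀ m : M, (∀ X, ρ X m = 0) → m = 0) →
    e0 N (fun μ => (Module.finrank k (wsp ρ μ) : ℤ)) = 0

/-- the statement of `glhom` -/
def GlHom (k : Type u) [Field k] (N : ℕ) : Prop :=
  ∀ (M : Type u) [AddCommGroup M] [Module k M] [FiniteDimensional k M]
    (ρ : Matrix (Fin N) (Fin N) k →ₗ[k] Module.End k M),
    (∀ X Y, ρ (X * Y - Y * X) = ρ X * ρ Y - ρ Y * ρ X) → ρ 1 = 0 →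
    (⨆ μ : Fin N → ℤ, wsp ρ μ = ⊤) →
    (∀ φ : Matrix (Fin N) (Fin N) k →ₗ[k] M,
      (∀ X Y, ρ X (φ Y) = φ (X * Y - Y * X)) → φ = 0) →
    egl N (fun μ => (Module.finrank k (wsp ρ μ) : ℤ)) = 0

section

variable {k V : Type u} [Field k] {N : ℕ} [AddCommGroup V] [Module k V]
  (ρ : Matrix (Fin N) (Fin N) k →ₗ[k] Module.End k V)

theorem mem_wsp {M : Type*} [AddCommGroup M] [Module k M]
    (τ : Matrix (Fin N) (Fin N) k →ₗ[k] Module.End k M) (μ : Fin N → ℤ) (m : M) :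
    m ∈ wsp τ μ ↔ ∀ j, τ (Matrix.single j j 1) m = ((μ j : ℤ) : k) • m := by
  simp only [wsp, Submodule.mem_iInf, LinearMap.mem_ker, LinearMap.sub_apply,
    LinearMap.smul_apply, LinearMap.id_apply, sub_eq_zero]

/-- joint eigenspaces for different integer weights are independent -/
theorem wsp_indep [CharZero k] {M : Type*} [AddCommGroup M] [Module k M]
    (τ : Matrix (Fin N) (Fin N) k →ₗ[k] Module.End k M)
    (hτ : ∀ X Y, τ (X * Y - Y * X) = τ X * τ Y - τ Y * τ X) :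
    iSupIndep fun μ : Fin N → ℤ => wsp τ μ := by
  classical
  have hcomm : ∀ i j : Fin N, Commute (τ (Matrix.single i i 1)) (τ (Matrix.single j j 1)) := by
    intro i j
    have h := hτ (Matrix.single i i 1) (Matrix.single j j 1)
    have h2 : Matrix.single i i (1 : k) * Matrix.single j j 1
        - Matrix.single j j 1 * Matrix.single i i 1 = 0 := by
      by_cases hij : i = j
      · subst hij; simp
      · rw [Matrix.single_mul_single_of_ne _ _ _ _ hij,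
          Matrix.single_mul_single_of_ne _ _ _ _ (Ne.symm hij), sub_zero]
    rw [h2, map_zero] at h
    exact (sub_eq_zero.mp h.symm)
  have hI : iSupIndep fun χ : Fin N → k =>
      ⨅ i, (τ (Matrix.single i i 1)).maxGenEigenspace (χ i) := by
    apply Module.End.independent_iInf_maxGenEigenspace_of_forall_mapsTo
    intro i j φ
    exact Module.End.mapsTo_maxGenEigenspace_of_comm (hcomm j i) φ
  have hinj : Function.Injective fun μ : Fin N → ℤ => (fun i => ((μ i : ℤ) : k)) := by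
    intro μ ν h
    funext i
    exact Int.cast_injective (congrFun h i)
  have hI2 := hI.comp hinj
  refine hI2.mono ?_
  intro μ m hm
  rw [mem_wsp] at hm
  simp only [Function.comp, Submodule.mem_iInf]
  intro i
  refine Module.End.mem_maxGenEigenspace _ _ _ |>.2 ⟨1, ?_⟩
  rw [pow_one, LinearMap.sub_apply, LinearMap.smul_apply, Module.End.one_apply, hm i, sub_self]

variable (Z B : Submodule k V) (hZ : ∀ X, ∀ z ∈ Z, ρ X z ∈ Z) (hB : ∀ X, ∀ z ∈ B, ρ X z ∈ B)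

/-- the action on the submodule -/
def rZ : Matrix (Fin N) (Fin N) k →ₗ[k] Module.End k Z where
  toFun X := (ρ X).restrict (hZ X)
  map_add' X Y := by
    ext z
    simp
  map_smul' c X := by
    ext z
    simp

include hB in
theorem hBq (X : Matrix (Fin N) (Fin N) k) :
    B.comap Z.subtype ≤ (B.comap Z.subtype).comap ((ρ X).restrict (hZ X)) :=
  fun _ hz => hB X _ hz

/-- the action on the subquotient -/
def rQ : Matrix (Fin N) (Fin N) k →ₗ[k] Module.End k (Z ⧸ B.comap Z.subtype) where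
  toFun X := (B.comap Z.subtype).mapQ (B.comap Z.subtype) ((ρ X).restrict (hZ X))
    (hBq ρ Z B hZ hB X)
  map_add' X Y := by
    apply LinearMap.ext
    intro m
    obtain ⟨z, rfl⟩ := Submodule.mkQ_surjective _ m
    rw [LinearMap.add_apply, Submodule.mkQ_apply, Submodule.mapQ_apply, Submodule.mapQ_apply,
      Submodule.mapQ_apply, ← Submodule.Quotient.mk_add]
    congr 1
    ext
    simp
  map_smul' c X := by
    apply LinearMap.ext
    intro m
    obtain ⟨z, rfl⟩ := Submodule.mkQ_surjective _ m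
    rw [LinearMap.smul_apply, Submodule.mkQ_apply, Submodule.mapQ_apply,
      Submodule.mapQ_apply, ← Submodule.Quotient.mk_smul]
    congr 1
    ext
    simp

theorem rQ_mk (X : Matrix (Fin N) (Fin N) k) (z : Z) :
    rQ ρ Z B hZ hB X (Submodule.Quotient.mk z) =
      Submodule.Quotient.mk (⟨ρ X z, hZ X z z.2⟩ : Z) := rfl

theorem rQ_bracket (hρ : ∀ X Y, ρ (X * Y - Y * X) = ρ X * ρ Y - ρ Y * ρ X)
    (X Y : Matrix (Fin N) (Fin N) k) :
    rQ ρ Z B hZ hB (X * Y - Y * X) = rQ ρ Z B hZ hB X * rQ ρ Z B hZ hB Y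
      - rQ ρ Z B hZ hB Y * rQ ρ Z B hZ hB X := by
  apply LinearMap.ext
  intro m
  obtain ⟨z, rfl⟩ := Submodule.mkQ_surjective _ m
  rw [LinearMap.sub_apply, Module.End.mul_apply, Module.End.mul_apply, Submodule.mkQ_apply,
    rQ_mk, rQ_mk, rQ_mk, rQ_mk, rQ_mk, ← Submodule.Quotient.mk_sub]
  congr 1
  ext
  rw [AddSubgroupClass.coe_sub]
  show ρ (X * Y - Y * X) (z : V) = ρ X (ρ Y (z : V)) - ρ Y (ρ X (z : V))
  rw [hρ]
  rfl

theorem mk_mem_wsp {μ : Fin N → ℤ} {z : Z} (hz : (z : V) ∈ wsp ρ μ) :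
    (Submodule.Quotient.mk z : Z ⧸ B.comap Z.subtype) ∈ wsp (rQ ρ Z B hZ hB) μ := by
  rw [mem_wsp] at hz ⊢
  intro j
  rw [rQ_mk, ← Submodule.Quotient.mk_smul]
  congr 1
  ext
  exact hz j

/-- every element of `Z` is a sum of weight vectors in `Z` -/
theorem exists_dfinsupp (hZtop : Z ≤ ⨆ μ : Fin N → ℤ, Z ⊓ wsp ρ μ) (z : Z) :
    ∃ f : (Fin N → ℤ) →₀ V, (∀ μ, f μ ∈ Z ⊓ wsp ρ μ) ∧ f.sum (fun _ x => x) = z := by
  have h := hZtop z.2
  rw [Submodule.mem_iSup_iff_exists_finsupp] at h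
  exact h

theorem wspQ_top (hZtop : Z ≤ ⨆ μ : Fin N → ℤ, Z ⊓ wsp ρ μ) :
    ⨆ μ : Fin N → ℤ, wsp (rQ ρ Z B hZ hB) μ = ⊤ := by
  classical
  rw [eq_top_iff]
  intro m _
  obtain ⟨z, rfl⟩ := Submodule.mkQ_surjective _ m
  obtain ⟨f, hf, hs⟩ := exists_dfinsupp ρ Z hZtop z
  have hz : z = ∑ μ ∈ f.support, (⟨f μ, (hf μ).1⟩ : Z) := by
    ext
    rw [AddSubmonoidClass.coe_finsetSum, ← hs]
    rfl
  rw [hz, map_sum]
  refine Submodule.sum_mem _ fun μ _ => ?_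
  exact Submodule.mem_iSup_of_mem μ (mk_mem_wsp ρ Z B hZ hB (hf μ).2)

theorem exists_lift [CharZero k] (hρ : ∀ X Y, ρ (X * Y - Y * X) = ρ X * ρ Y - ρ Y * ρ X)
    (hZtop : Z ≤ ⨆ μ : Fin N → ℤ, Z ⊓ wsp ρ μ) (μ : Fin N → ℤ)
    (m : Z ⧸ B.comap Z.subtype) (hm : m ∈ wsp (rQ ρ Z B hZ hB) μ) :
    ∃ z : Z, (z : V) ∈ wsp ρ μ ∧ Submodule.Quotient.mk z = m := by
  classical
  obtain ⟨z, rfl⟩ := Submodule.mkQ_surjective _ m
  obtain ⟨f, hf, hs⟩ := exists_dfinsupp ρ Z hZtop z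
  have hz : z = ∑ ν ∈ f.support, (⟨f ν, (hf ν).1⟩ : Z) := by
    ext
    rw [AddSubmonoidClass.coe_finsetSum, ← hs]
    rfl
  refine ⟨⟨f μ, (hf μ).1⟩, (hf μ).2, ?_⟩
  have hI := wsp_indep (rQ ρ Z B hZ hB) (rQ_bracket ρ Z B hZ hB hρ)
  -- the difference lies in the sum of the other weight spaces and in the weight space of `μ`
  have h1 : (B.comap Z.subtype).mkQ z - Submodule.Quotient.mk (⟨f μ, (hf μ).1⟩ : Z)
      ∈ wsp (rQ ρ Z B hZ hB) μ :=
    sub_mem hm (mk_mem_wsp ρ Z B hZ hB (hf μ).2)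
  have h2 : (B.comap Z.subtype).mkQ z - Submodule.Quotient.mk (⟨f μ, (hf μ).1⟩ : Z)
      ∈ ⨆ (ν) (_ : ν ≠ μ), wsp (rQ ρ Z B hZ hB) ν := by
    have h3 : (B.comap Z.subtype).mkQ z - Submodule.Quotient.mk (⟨f μ, (hf μ).1⟩ : Z)
        = ∑ ν ∈ f.support.erase μ,
          (Submodule.Quotient.mk (⟨f ν, (hf ν).1⟩ : Z) : Z ⧸ B.comap Z.subtype) := by
      rw [hz, map_sum]
      by_cases hμ : μ ∈ f.support
      · rw [← Finset.add_sum_erase _ _ hμ]
        simp only [Submodule.mkQ_apply]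
        abel
      · rw [Finset.erase_eq_of_notMem hμ]
        have h0 : f μ = 0 := Finsupp.notMem_support_iff.mp hμ
        have h4 : (⟨f μ, (hf μ).1⟩ : Z) = 0 := by
          ext
          exact h0
        rw [h4, Submodule.Quotient.mk_zero, sub_zero]
        rfl
    rw [h3]
    refine Submodule.sum_mem _ fun ν hν => ?_
    refine Submodule.mem_iSup_of_mem ν (Submodule.mem_iSup_of_mem (Finset.ne_of_mem_erase hν) ?_)
    exact mk_mem_wsp ρ Z B hZ hB (hf ν).2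
  have h5 := (hI μ).le_bot ⟨h1, h2⟩
  rw [Submodule.mem_bot, sub_eq_zero] at h5
  exact h5.symm

/-- the weight space of the subquotient -/
theorem finrank_wspQ [CharZero k] [FiniteDimensional k Z]
    (hρ : ∀ X Y, ρ (X * Y - Y * X) = ρ X * ρ Y - ρ Y * ρ X) (hBZ : B ≤ Z)
    (hZtop : Z ≤ ⨆ μ : Fin N → ℤ, Z ⊓ wsp ρ μ) (μ : Fin N → ℤ) :
    (Module.finrank k (wsp (rQ ρ Z B hZ hB) μ) : ℤ) =
      (Module.finrank k ↥(Z ⊓ wsp ρ μ) : ℤ) - Module.finrank k ↥(B ⊓ wsp ρ μ) := by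
  have : FiniteDimensional k ↥(Z ⊓ wsp ρ μ) :=
    Submodule.finiteDimensional_of_le (inf_le_left : Z ⊓ wsp ρ μ ≤ Z)
  let g : ↥(Z ⊓ wsp ρ μ) →ₗ[k] wsp (rQ ρ Z B hZ hB) μ :=
    LinearMap.codRestrict _ ((B.comap Z.subtype).mkQ ∘ₗ Submodule.inclusion inf_le_left)
      (fun z => mk_mem_wsp ρ Z B hZ hB z.2.2)
  have hgs : Function.Surjective g := by
    rintro ⟨m, hm⟩
    obtain ⟨z, hz, hzm⟩ := exists_lift ρ Z B hZ hB hρ hZtop μ m hm
    refine ⟨⟨(z : V), z.2, hz⟩, ?_⟩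
    apply Subtype.ext
    exact hzm
  have hker : Module.finrank k (LinearMap.ker g) = Module.finrank k ↥(B ⊓ wsp ρ μ) := by
    refine LinearEquiv.finrank_eq ?_
    refine
      { toFun := fun z => ⟨((z : ↥(Z ⊓ wsp ρ μ)) : V), ?_, (z : ↥(Z ⊓ wsp ρ μ)).2.2⟩
        invFun := fun b => ⟨⟨(b : V), hBZ b.2.1, b.2.2⟩, ?_⟩
        map_add' := fun _ _ => rfl
        map_smul' := fun _ _ => rfl
        left_inv := fun _ => rfl
        right_inv := fun _ => rfl }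
    · have hz := z.2
      rw [LinearMap.mem_ker] at hz
      have hz2 := congrArg Subtype.val hz
      have hz3 : (Submodule.Quotient.mk
          (Submodule.inclusion inf_le_left (z : ↥(Z ⊓ wsp ρ μ)) : Z) :
            Z ⧸ B.comap Z.subtype) = 0 := hz2
      rw [Submodule.Quotient.mk_eq_zero] at hz3
      exact hz3
    · rw [LinearMap.mem_ker]
      apply Subtype.ext
      show (Submodule.Quotient.mk
          (Submodule.inclusion inf_le_left (⟨(b : V), hBZ b.2.1, b.2.2⟩ : ↥(Z ⊓ wsp ρ μ)) : Z) :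
            Z ⧸ B.comap Z.subtype) = 0
      rw [Submodule.Quotient.mk_eq_zero]
      exact b.2.1
  have h := LinearMap.finrank_range_add_finrank_ker g
  rw [LinearMap.range_eq_top.mpr hgs, finrank_top, hker] at h
  omega

end

theorem subq_of {k V : Type u} [Field k] [CharZero k] {N : ℕ} (hG : GlHom k N) (hR : RepN k N)
    [AddCommGroup V]
    [Module k V] (ρ : Matrix (Fin N) (Fin N) k →ₗ[k] Module.End k V)
    (hρ : ∀ X Y, ρ (X * Y - Y * X) = ρ X * ρ Y - ρ Y * ρ X)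
    (Z B : Submodule k V) (hBZ : B ≤ Z) [FiniteDimensional k Z]
    (hZ : ∀ X, ∀ z ∈ Z, ρ X z ∈ Z) (hB : ∀ X, ∀ z ∈ B, ρ X z ∈ B)
    (h1 : ∀ z ∈ Z, ρ 1 z = 0)
    (hZtop : Z ≤ ⨆ μ : Fin N → ℤ, Z ⊓ wsp ρ μ)
    (hinv : ∀ z ∈ Z, (∀ X, ρ X z ∈ B) → z ∈ B)
    (hadj : ∀ φ : Matrix (Fin N) (Fin N) k →ₗ[k] V, (∀ Y, φ Y ∈ Z) →
      (∀ X Y, ρ X (φ Y) - φ (X * Y - Y * X) ∈ B) → ∀ Y, φ Y ∈ B) :
    e0 N (fun μ => (Module.finrank k ↥(Z ⊓ wsp ρ μ) : ℤ) - Module.finrank k ↥(B ⊓ wsp ρ μ)) = 0 ∧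
    egl N (fun μ => (Module.finrank k ↥(Z ⊓ wsp ρ μ) : ℤ) - Module.finrank k ↥(B ⊓ wsp ρ μ)) = 0
    := by
  have hfun : (fun μ : Fin N → ℤ => (Module.finrank k ↥(Z ⊓ wsp ρ μ) : ℤ)
      - Module.finrank k ↥(B ⊓ wsp ρ μ)) =
      fun μ => (Module.finrank k (wsp (rQ ρ Z B hZ hB) μ) : ℤ) := by
    funext μ
    exact (finrank_wspQ ρ Z B hZ hB hρ hBZ hZtop μ).symm
  rw [hfun]
  have hQ1 : rQ ρ Z B hZ hB 1 = 0 := by
    apply LinearMap.ext
    intro m
    obtain ⟨z, rfl⟩ := Submodule.mkQ_surjective _ m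
    rw [Submodule.mkQ_apply, rQ_mk, LinearMap.zero_apply, Submodule.Quotient.mk_eq_zero]
    show ρ 1 (z : V) ∈ B
    rw [h1 z z.2]
    exact zero_mem _
  refine ⟨hR _ (rQ ρ Z B hZ hB) (rQ_bracket ρ Z B hZ hB hρ) hQ1
    (wspQ_top ρ Z B hZ hB hZtop) ?_, hG _ (rQ ρ Z B hZ hB) (rQ_bracket ρ Z B hZ hB hρ) hQ1
    (wspQ_top ρ Z B hZ hB hZtop) ?_⟩
  · intro m hm
    obtain ⟨z, rfl⟩ := Submodule.mkQ_surjective _ m
    rw [Submodule.mkQ_apply, Submodule.Quotient.mk_eq_zero]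
    refine hinv z z.2 fun X => ?_
    have h := hm X
    rw [Submodule.mkQ_apply, rQ_mk, Submodule.Quotient.mk_eq_zero] at h
    exact h
  · intro φ hφ
    -- lift `φ` to `V`
    obtain ⟨ψ, hψ⟩ := Module.projective_lifting_property (B.comap Z.subtype).mkQ φ
      (Submodule.mkQ_surjective _)
    have h := hadj (Z.subtype ∘ₗ ψ) (fun Y => (ψ Y).2) (by
      intro X Y
      have h2 := hφ X Y
      rw [← hψ, LinearMap.comp_apply, LinearMap.comp_apply, Submodule.mkQ_apply,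
        Submodule.mkQ_apply, rQ_mk] at h2
      rw [Submodule.Quotient.eq] at h2
      exact h2)
    rw [← hψ]
    apply LinearMap.ext
    intro Y
    rw [LinearMap.comp_apply, Submodule.mkQ_apply, LinearMap.zero_apply,
      Submodule.Quotient.mk_eq_zero]
    exact h Y

end Pool.Agent.Y355.KM
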