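import Pool.Agent.Y80.KM.CharDefs

set_option autoImplicit false

open scoped BigOperators

/-! Job KMSPEC of project KM (helper80): specialisation of `Φ` to one variable. -/

namespace Pool.Agent.Y355.KMS

open Pool.Agent.Y80.KM

variable {d : ℕ}

theorem zpw_unit (f : CharJ d) (h : MvPowerSeries.constantCoeff f = 1) :
    ∃ u : (CharJ d)ˣ, (u : CharJ d) = f ∧ ∀ n : ℤ, zpw f n = ((u ^ n : (CharJ d)ˣ) : CharJ d) := by
  have h1 : MvPowerSeries.constantCoeff f = ((1 : TorusCharˣ) : TorusChar) := by simpa using h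
  refine ⟨⟨f, MvPowerSeries.invOfUnit f 1, MvPowerSeries.mul_invOfUnit f 1 h1,
    MvPowerSeries.invOfUnit_mul f 1 h1⟩, rfl, ?_⟩
  intro n
  unfold zpw
  split_ifs with hn
  · obtain ⟨m, rfl⟩ := Int.eq_ofNat_of_zero_le hn
    simp
  · obtain ⟨m, hm⟩ := Int.eq_ofNat_of_zero_le (show 0 ≤ -n by omega)
    have hn2 : n = -(m : ℤ) := by omega
    subst hn2
    simp

theorem zpw1_unit (f : PowerSeries TorusChar) (h : PowerSeries.constantCoeff f = 1) :
    ∃ u : (PowerSeries TorusChar)ˣ, (u : PowerSeries TorusChar) = f ∧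
      ∀ n : ℤ, zpw1 f n = ((u ^ n : (PowerSeries TorusChar)ˣ) : PowerSeries TorusChar) := by
  have h1 : PowerSeries.constantCoeff f = ((1 : TorusCharˣ) : TorusChar) := by simpa using h
  refine ⟨⟨f, PowerSeries.invOfUnit f 1, PowerSeries.mul_invOfUnit f 1 h1,
    PowerSeries.invOfUnit_mul f 1 h1⟩, rfl, ?_⟩
  intro n
  unfold zpw1
  split_ifs with hn
  · obtain ⟨m, rfl⟩ := Int.eq_ofNat_of_zero_le hn
    simp
  · obtain ⟨m, hm⟩ := Int.eq_ofNat_of_zero_le (show 0 ≤ -n by omega)
    have hn2 : n = -(m : ℤ) := by omega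
    subst hn2
    simp

theorem zpw1_sum {ι : Type*} (f : PowerSeries TorusChar) (h : PowerSeries.constantCoeff f = 1)
    (s : Finset ι) (g : ι → ℤ) : zpw1 f (∑ i ∈ s, g i) = ∏ i ∈ s, zpw1 f (g i) := by
  classical
  obtain ⟨u, -, hu⟩ := zpw1_unit f h
  simp only [hu]
  induction s using Finset.induction_on with
  | empty => simp
  | insert a s ha ih =>
    rw [Finset.sum_insert ha, Finset.prod_insert ha, zpow_add, Units.val_mul, ih]

/-- all variables are sent to one variable -/
noncomputable def psi : CharJ d →ₐ[TorusChar] PowerSeries TorusChar :=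
  MvPowerSeries.rename (fun _ : Fin d => ())

theorem mapDomain_unit (α : Fin d →₀ ℕ) :
    Finsupp.mapDomain (fun _ : Fin d => ()) α = Finsupp.single () (∑ i, α i) := by
  ext
  rw [Finsupp.mapDomain, Finsupp.sum_apply, Finsupp.single_eq_same]
  rw [Finsupp.sum_fintype _ _ (by simp)]
  simp

theorem psi_monomial (α : Fin d →₀ ℕ) (r : TorusChar) :
    psi (MvPowerSeries.monomial α r) = PowerSeries.monomial (∑ i, α i) r := by
  rw [psi, MvPowerSeries.rename_monomial, mapDomain_unit]
  rfl

theorem coeff_psi (f : CharJ d) (n : ℕ) : PowerSeries.coeff n (psi f) =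
    ∑ β ∈ Finset.finsuppAntidiag (Finset.univ : Finset (Fin d)) n, MvPowerSeries.coeff β f := by
  rw [PowerSeries.coeff, psi, MvPowerSeries.coeff_rename]
  refine Finset.sum_congr ?_ fun _ _ => rfl
  ext β
  rw [Set.Finite.mem_toFinset, Set.mem_preimage, Set.mem_singleton_iff, mapDomain_unit,
    Finset.mem_finsuppAntidiag]
  constructor
  · intro h
    refine ⟨?_, Finset.subset_univ _⟩
    have := DFunLike.congr_fun h ()
    simpa using this
  · rintro ⟨h, -⟩
    rw [← h]

theorem psi_const (f : CharJ d) (h : MvPowerSeries.constantCoeff f = 1) :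
    PowerSeries.constantCoeff (psi f) = 1 := by
  rw [← PowerSeries.coeff_zero_eq_constantCoeff_apply, coeff_psi]
  rw [Finset.finsuppAntidiag_zero, Finset.sum_singleton]
  simpa using h

theorem psi_zpw (f : CharJ d) (h : MvPowerSeries.constantCoeff f = 1) (n : ℤ) :
    psi (zpw f n) = zpw1 (psi f) n := by
  obtain ⟨u, hu1, hu⟩ := zpw_unit f h
  obtain ⟨v, hv1, hv⟩ := zpw1_unit (psi f) (psi_const f h)
  rw [hu, hv]
  have h2 : Units.map (psi (d := d) : CharJ d →* PowerSeries TorusChar) u = v := by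
    ext1
    rw [hv1, ← hu1]
    rfl
  rw [← h2, ← map_zpow]
  rfl

theorem const_lamOne {α : Fin d →₀ ℕ} (hα : α ≠ 0) (m : ℤ) :
    MvPowerSeries.constantCoeff (lamOne α m) = 1 := by
  rw [lamOne, map_sub, map_one, ← MvPowerSeries.coeff_zero_eq_constantCoeff_apply,
    MvPowerSeries.coeff_monomial, if_neg (Ne.symm hα), sub_zero]

theorem psi_lamOne (α : Fin d →₀ ℕ) (m : ℤ) :
    psi (lamOne α m) = 1 - PowerSeries.monomial (∑ i, α i) (wtj m) := by
  rw [lamOne, map_sub, map_one, psi_monomial]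

theorem psi_lamTerm {α : Fin d →₀ ℕ} (hα : α ≠ 0) (p q : ℤ) :
    psi (lamTerm α p q) =
      zpw1 (1 - PowerSeries.monomial (∑ i, α i) (wtj 0)) (p + q) *
        (zpw1 (1 - PowerSeries.monomial (∑ i, α i) (wtj 1)) p *
          zpw1 (1 - PowerSeries.monomial (∑ i, α i) (wtj (-1))) p) := by
  rw [lamTerm, map_mul, map_mul, psi_zpw _ (const_lamOne hα _), psi_zpw _ (const_lamOne hα _),
    psi_zpw _ (const_lamOne hα _), psi_lamOne, psi_lamOne, psi_lamOne]

/-- series without terms below `β` -/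
def lowIdeal (β : Fin d →₀ ℕ) : Ideal (CharJ d) where
  carrier := {f | ∀ γ ≤ β, MvPowerSeries.coeff γ f = 0}
  zero_mem' := by intro γ _; simp
  add_mem' := by
    intro f g hf hg γ hγ
    simp [hf γ hγ, hg γ hγ]
  smul_mem' := by
    intro c f hf γ hγ
    rw [smul_eq_mul, MvPowerSeries.coeff_mul]
    apply Finset.sum_eq_zero
    intro x hx
    rw [Finset.HasAntidiagonal.mem_antidiagonal] at hx
    rw [hf x.2 (le_trans (by rw [← hx]; exact le_add_self) hγ), mul_zero]

theorem mk_zpw {β : Fin d →₀ ℕ} {f : CharJ d} (h : MvPowerSeries.constantCoeff f = 1)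
    (hf : Ideal.Quotient.mk (lowIdeal β) f = 1) (n : ℤ) :
    Ideal.Quotient.mk (lowIdeal β) (zpw f n) = 1 := by
  obtain ⟨u, hu1, hu⟩ := zpw_unit f h
  rw [hu]
  have h2 : Units.map (Ideal.Quotient.mk (lowIdeal β)).toMonoidHom u = 1 := by
    ext1
    rw [Units.val_one, ← hf, ← hu1]
    rfl
  have h3 : Units.map (Ideal.Quotient.mk (lowIdeal β)).toMonoidHom (u ^ n)
      = 1 := by
    rw [map_zpow, h2, one_zpow]
  exact congrArg Units.val h3

theorem mk_lamTerm {α β : Fin d →₀ ℕ} (h : ¬ α ≤ β) (p q : ℤ) :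
    Ideal.Quotient.mk (lowIdeal β) (lamTerm α p q) = 1 := by
  have hα : α ≠ 0 := by
    rintro rfl
    exact h bot_le
  have h1 : ∀ m : ℤ, Ideal.Quotient.mk (lowIdeal β) (lamOne α m) = 1 := by
    intro m
    rw [← map_one (Ideal.Quotient.mk (lowIdeal β)), Ideal.Quotient.mk_eq_mk_iff_sub_mem]
    intro γ hγ
    rw [lamOne, sub_sub_cancel_left, map_neg, MvPowerSeries.coeff_monomial, if_neg, neg_zero]
    rintro rfl
    exact h hγ
  rw [lamTerm, map_mul, map_mul, mk_zpw (const_lamOne hα _) (h1 _),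
    mk_zpw (const_lamOne hα _) (h1 _), mk_zpw (const_lamOne hα _) (h1 _), one_mul, one_mul]

theorem coeff_congr_mk {β : Fin d →₀ ℕ} {f g : CharJ d}
    (h : Ideal.Quotient.mk (lowIdeal β) f = Ideal.Quotient.mk (lowIdeal β) g) :
    MvPowerSeries.coeff β f = MvPowerSeries.coeff β g := by
  rw [Ideal.Quotient.mk_eq_mk_iff_sub_mem] at h
  have h2 := h β le_rfl
  rwa [map_sub, sub_eq_zero] at h2

theorem spec_phi {d : ℕ} (a b : MvPowerSeries (Fin d) ℤ) (N n : ℕ) (hn : n ≤ N) :
    PowerSeries.coeff n (GJ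
      (fun m => ∑ α ∈ Finset.finsuppAntidiag (Finset.univ : Finset (Fin d)) m,
        MvPowerSeries.coeff α a)
      (fun m => ∑ α ∈ Finset.finsuppAntidiag (Finset.univ : Finset (Fin d)) m,
        MvPowerSeries.coeff α b) N) =
    ∑ β ∈ Finset.finsuppAntidiag (Finset.univ : Finset (Fin d)) n, phi a b β := by
  classical
  set F : CharJ d := ∏ m ∈ Finset.Icc 1 N,
    ∏ α ∈ Finset.finsuppAntidiag (Finset.univ : Finset (Fin d)) m,
      lamTerm α (MvPowerSeries.coeff α a) (MvPowerSeries.coeff α b) with hF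
  have h1 : psi F = GJ
      (fun m => ∑ α ∈ Finset.finsuppAntidiag (Finset.univ : Finset (Fin d)) m,
        MvPowerSeries.coeff α a)
      (fun m => ∑ α ∈ Finset.finsuppAntidiag (Finset.univ : Finset (Fin d)) m,
        MvPowerSeries.coeff α b) N := by
    rw [hF, map_prod, GJ]
    refine Finset.prod_congr rfl fun m hm => ?_
    rw [Finset.mem_Icc] at hm
    have hc : ∀ j : ℤ, PowerSeries.constantCoeff
        (1 - PowerSeries.monomial m (wtj j)) = 1 := by
      intro j
      rw [map_sub, map_one, ← PowerSeries.coeff_zero_eq_constantCoeff_apply,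
        PowerSeries.coeff_monomial, if_neg (by omega), sub_zero]
    rw [map_prod, ← Finset.sum_add_distrib, zpw1_sum _ (hc 0), zpw1_sum _ (hc 1),
      zpw1_sum _ (hc (-1)), ← Finset.prod_mul_distrib, ← Finset.prod_mul_distrib]
    refine Finset.prod_congr rfl fun α hα => ?_
    rw [Finset.mem_finsuppAntidiag] at hα
    have hα0 : α ≠ 0 := by
      rintro rfl
      simp at hα
      omega
    rw [psi_lamTerm hα0, hα.1]
  rw [← h1, coeff_psi]
  refine Finset.sum_congr rfl fun β hβ => ?_
  rw [Finset.mem_finsuppAntidiag] at hβ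
  rw [phi]
  apply coeff_congr_mk
  rw [hF, ← Finset.prod_biUnion (s := Finset.Icc 1 N)
    (t := fun m => Finset.finsuppAntidiag (Finset.univ : Finset (Fin d)) m)
    (f := fun α => lamTerm α (MvPowerSeries.coeff α a) (MvPowerSeries.coeff α b))]
  · have h2 : (Finset.Icc 0 β).erase 0 = ((Finset.Icc 1 N).biUnion fun m =>
        Finset.finsuppAntidiag (Finset.univ : Finset (Fin d)) m).filter (fun α => α ≤ β) := by
      ext α
      rw [Finset.mem_erase, Finset.mem_Icc, Finset.mem_filter, Finset.mem_biUnion]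
      constructor
      · rintro ⟨h0, -, hle⟩
        refine ⟨⟨∑ i, α i, ?_, ?_⟩, hle⟩
        · rw [Finset.mem_Icc]
          constructor
          · by_contra hcon
            apply h0
            ext i
            have : ∑ i, α i = 0 := by omega
            rw [Finset.sum_eq_zero_iff] at this
            simpa using this i (Finset.mem_univ i)
          · refine le_trans (Finset.sum_le_sum fun i _ => hle i) ?_
            rw [hβ.1]
            exact hn
        · rw [Finset.mem_finsuppAntidiag]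
          exact ⟨rfl, Finset.subset_univ _⟩
      · rintro ⟨⟨m, hm, hα⟩, hle⟩
        rw [Finset.mem_Icc] at hm
        rw [Finset.mem_finsuppAntidiag] at hα
        refine ⟨?_, bot_le, hle⟩
        rintro rfl
        simp at hα
        omega
    rw [h2, map_prod, map_prod, Finset.prod_filter]
    refine Finset.prod_congr rfl fun α _ => ?_
    split_ifs with hle
    · rfl
    · exact mk_lamTerm hle _ _
  · intro m _ m' _ hmm
    rw [Function.onFun, Finset.disjoint_left]
    intro α h3 h4
    rw [Finset.mem_finsuppAntidiag] at h3 h4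
    exact hmm (h3.1.symm.trans h4.1)

end Pool.Agent.Y355.KMS
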